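import Pool.Agent.MP557517.Main

/-!
# Lipschitz free p-spaces over countable proper metric spaces have the MAP

The definitions are in `Pool.Agent.MP557517.Defs`, the proof is in
`Pool.Agent.MP557517.FreeSpace` and `Pool.Agent.MP557517.Main`.
-/

namespace Pool.Agent.Results.MP_557517_an.CountableProperMAP

open Pool.Agent.MP557517

universe u v

/-- For every `p ∈ (0,1]` and every countable proper metric space `K` with base point, the
Lipschitz free `p`-space `𝓕_p(K)` exists and (every model of it) has the metric approximation
property. -/
theorem result (p : ℝ) (hp0 : 0 < p) (hp1 : p ≤ 1) (K : Type u) [MetricSpace K] [ProperSpace K]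
    [Countable K] (base : K) :
    (∃ (X : Type u) (_ : AddCommGroup X) (_ : Module ℝ X) (N : X → ℝ) (δ : K → X),
      IsLipschitzFreePSpace p base N δ) ∧
    (∀ (X : Type v) [AddCommGroup X] [Module ℝ X] (N : X → ℝ) (δ : K → X),
      IsLipschitzFreePSpace p base N δ → HasMAP N) :=
  ⟨⟨FreeP p base, inferInstance, inferInstance, _, _, isLipschitzFree_freeP hp0 base⟩,
    fun _ _ _ _ _ h => main hp0 hp1 h⟩

end Pool.Agent.Results.MP_557517_an.CountableProperMAP
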